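import Mathlib

/-!
# Omega-values of the generators of interval-generated numerical monoids

For `Γ = ⟨n, n+1, …, n+k⟩` with `n ≥ 2`, `1 ≤ k ≤ n-1` all values `ω(n+i)`, `0 ≤ i ≤ k`, are
determined in closed form.
-/

set_option autoImplicit false

open Finset

namespace Pool.Agent.Results.MP_d5f0e7_al.OmegaFormula

/-- The numerical monoid generated by the interval `n, n+1, …, n+k`. -/
def Gam (n k : ℕ) : AddSubmonoid ℕ := AddSubmonoid.closure (Set.Icc n (n + k))

/-- `x ∣_Γ y`: `y - x ∈ Γ`. -/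
def GDvd (n k x y : ℕ) : Prop := ∃ g ∈ Gam n k, y = x + g

/-- The property defining `ω(x) ≤ m`: whenever `x` divides a sum of elements of `Γ`, it divides a
subsum of at most `m` of them. -/
def OmegaProp (n k x m : ℕ) : Prop :=
  ∀ (r : ℕ) (a : Fin r → ℕ), (∀ j, a j ∈ Gam n k) → GDvd n k x (∑ j, a j) →
    ∃ T : Finset (Fin r), T.card ≤ m ∧ GDvd n k x (∑ j ∈ T, a j)

/-- `ω(x)`: the least `m` with the above property. -/
noncomputable def omega' (n k x : ℕ) : ℕ := sInf {m | OmegaProp n k x m}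

/-- `q = ⌊(n-2)/k⌋ + 1`. -/
def qq (n k : ℕ) : ℕ := (n - 2) / k + 1

/-- A sequence with prescribed sum and entries in `[lo, hi]`. -/
theorem exists_seq (r lo hi S : ℕ) (h1 : r * lo ≤ S) (h2 : S ≤ r * hi) (h : lo ≤ hi) :
    ∃ f : Fin r → ℕ, (∀ j, lo ≤ f j ∧ f j ≤ hi) ∧ ∑ j, f j = S := by
  induction r generalizing S with
  | zero => exact ⟨fun _ => 0, fun j => j.elim0, by simp at h2 ⊢; omega⟩
  | succ r ih =>
    -- first entry `t = max lo (S - r hi)`
    rw [Nat.succ_mul] at h1 h2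
    obtain ⟨t, ht1, ht2, ht3, ht4, ht5⟩ : ∃ t, lo ≤ t ∧ t ≤ hi ∧ t ≤ S ∧ r * lo ≤ S - t ∧
        S - t ≤ r * hi := by
      have hrr : r * lo ≤ r * hi := Nat.mul_le_mul_left r h
      rcases le_total lo (S - r * hi) with h3 | h3
      · exact ⟨S - r * hi, h3, by omega, by omega, by omega, by omega⟩
      · exact ⟨lo, le_rfl, h, by omega, by omega, by omega⟩
    obtain ⟨f, hf1, hf2⟩ := ih (S - t) ht4 ht5
    refine ⟨Fin.cons t f, ?_, ?_⟩
    · intro j
      refine Fin.cases ?_ (fun j => ?_) j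
      · simpa using ⟨ht1, ht2⟩
      · simpa using hf1 j
    · rw [Fin.sum_univ_succ]
      simp only [Fin.cons_zero, Fin.cons_succ]
      rw [hf2]
      omega

theorem gen_mem {n k g : ℕ} (h1 : n ≤ g) (h2 : g ≤ n + k) : g ∈ Gam n k :=
  AddSubmonoid.subset_closure ⟨h1, h2⟩

theorem mem_iff (n k z : ℕ) : z ∈ Gam n k ↔ ∃ q, q * n ≤ z ∧ z ≤ q * (n + k) := by
  constructor
  · intro h
    refine AddSubmonoid.closure_induction
      (motive := fun z _ => ∃ q, q * n ≤ z ∧ z ≤ q * (n + k)) ?_ ?_ ?_ h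
    · rintro x ⟨h1, h2⟩
      exact ⟨1, by omega, by omega⟩
    · exact ⟨0, by simp, by simp⟩
    · rintro x y _ _ ⟨q, h1, h2⟩ ⟨q', h1', h2'⟩
      exact ⟨q + q', by rw [Nat.add_mul]; omega, by rw [Nat.add_mul]; omega⟩
  · rintro ⟨q, h1, h2⟩
    obtain ⟨f, hf1, hf2⟩ := exists_seq q n (n + k) z h1 h2 (by omega)
    rw [← hf2]
    exact AddSubmonoid.sum_mem _ (fun j _ => gen_mem (hf1 j).1 (hf1 j).2)

theorem mem_of {n k q c : ℕ} (h : c ≤ q * k) : q * n + c ∈ Gam n k :=
  (mem_iff n k _).2 ⟨q, by omega, by rw [Nat.mul_add]; omega⟩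

theorem not_mem_of {n k q c : ℕ} (hc : c < n) (h : q * k < c) : q * n + c ∉ Gam n k := by
  rw [mem_iff]
  rintro ⟨q', h1, h2⟩
  have hqq : q' ≤ q := by
    by_contra hcon
    push Not at hcon
    have : (q + 1) * n ≤ q' * n := Nat.mul_le_mul_right n hcon
    rw [Nat.add_mul] at this
    omega
  have h3 : q' * (n + k) ≤ q * (n + k) := Nat.mul_le_mul_right _ hqq
  rw [Nat.mul_add q] at h3
  omega

/-- A bullet of size `r` gives `r ≤ ω(x)`-type information: the property fails below `r`. -/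
theorem not_prop_of_bullet {n k x r z : ℕ} (g : Fin r → ℕ) (hg : ∀ j, g j ∈ Gam n k)
    (hz : z ∈ Gam n k) (hsum : ∑ j, g j = x + z)
    (hnot : ∀ j, ∀ w, w + g j = z → w ∉ Gam n k) (m : ℕ) (hm : m < r) : ¬ OmegaProp n k x m := by
  intro hP
  obtain ⟨T, hT, w, hw, hTw⟩ := hP r g hg ⟨z, hz, hsum⟩
  obtain ⟨l, hl⟩ : ∃ l, l ∉ T := by
    by_contra hcon
    push Not at hcon
    have : T = univ := eq_univ_iff_forall.2 hcon
    rw [this, card_univ, Fintype.card_fin] at hT
    omega
  have h1 : ∑ j, g j = ∑ j ∈ T, g j + ∑ j ∈ Tᶜ, g j := (sum_add_sum_compl T g).symm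
  have hlc : l ∈ Tᶜ := by rw [mem_compl]; exact hl
  have h2 : ∑ j ∈ Tᶜ, g j = g l + ∑ j ∈ Tᶜ.erase l, g j := (add_sum_erase _ _ hlc).symm
  refine hnot l (w + ∑ j ∈ Tᶜ.erase l, g j) (by omega) ?_
  exact add_mem hw (AddSubmonoid.sum_mem _ (fun j _ => hg j))

/-- Upper bound from a bound on bullets. -/
theorem prop_of_bound {n k x N : ℕ}
    (hb : ∀ (ι : Type) (U : Finset ι) (g : ι → ℕ) (z : ℕ), (∀ u ∈ U, n ≤ g u ∧ g u ≤ n + k) →
      z ∈ Gam n k → ∑ u ∈ U, g u = x + z → (∀ u ∈ U, ∀ w, w + g u = z → w ∉ Gam n k) →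
      U.card ≤ N) : OmegaProp n k x N := by
  classical
  intro r a ha hx
  -- decompose each `a j` into generators
  have hdec : ∀ j, ∃ l : List ℕ, (∀ y ∈ l, y ∈ Set.Icc n (n + k)) ∧ l.sum = a j := fun j =>
    AddSubmonoid.exists_list_of_mem_closure (ha j)
  choose l hl1 hl2 using hdec
  set ι := (Σ j : Fin r, Fin (l j).length) with hι
  set g : ι → ℕ := fun p => (l p.1).get p.2 with hg
  have hgen : ∀ p : ι, n ≤ g p ∧ g p ≤ n + k := fun p => hl1 p.1 _ (List.get_mem _ _)
  have hsumj : ∀ j, ∑ p : Fin (l j).length, (l j).get p = a j := by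
    intro j
    rw [← hl2 j]
    exact Fin.sum_univ_getElem (l j)
  have htot : ∑ p : ι, g p = ∑ j, a j := by
    rw [Fintype.sum_sigma]
    exact sum_congr rfl (fun j _ => hsumj j)
  -- a minimal subfamily
  have hex : ((univ : Finset (Finset ι)).filter (fun U => GDvd n k x (∑ u ∈ U, g u))).Nonempty := by
    refine ⟨univ, ?_⟩
    rw [mem_filter]
    exact ⟨mem_univ _, by rw [htot]; exact hx⟩
  obtain ⟨U, hU, hmin⟩ := exists_min_image _ (fun U => U.card) hex
  rw [mem_filter] at hU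
  obtain ⟨-, z, hz, hUz⟩ := hU
  have hcard : U.card ≤ N := by
    apply hb ι U g z (fun u _ => hgen u) hz hUz
    intro u hu w hw hmem
    have h1 : GDvd n k x (∑ v ∈ U.erase u, g v) := by
      refine ⟨w, hmem, ?_⟩
      have := add_sum_erase U g hu
      omega
    have h2 := hmin (U.erase u) (by rw [mem_filter]; exact ⟨mem_univ _, h1⟩)
    rw [card_erase_of_mem hu] at h2
    have : 0 < U.card := card_pos.2 ⟨u, hu⟩
    omega
  refine ⟨U.image (fun p => p.1), card_image_le.trans hcard, ?_⟩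
  set T := U.image (fun p => p.1) with hT
  have hsub : U ⊆ T.sigma (fun j => (univ : Finset (Fin (l j).length))) := by
    intro p hp
    rw [mem_sigma]
    exact ⟨mem_image_of_mem _ hp, mem_univ _⟩
  have h1 : ∑ j ∈ T, a j = ∑ p ∈ T.sigma (fun j => (univ : Finset (Fin (l j).length))), g p := by
    rw [sum_sigma]
    exact sum_congr rfl (fun j _ => (hsumj j).symm)
  have h2 := sum_sdiff (f := g) hsub
  refine ⟨∑ p ∈ T.sigma (fun j => (univ : Finset (Fin (l j).length))) \ U, g p + z, ?_, ?_⟩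
  · exact add_mem (AddSubmonoid.sum_mem _ (fun p _ => gen_mem (hgen p).1 (hgen p).2)) hz
  · rw [h1, ← h2, hUz]
    ring

theorem omega_eq {n k x N : ℕ} (h1 : OmegaProp n k x N) (h2 : ∀ m, m < N → ¬ OmegaProp n k x m) :
    omega' n k x = N := by
  apply le_antisymm (Nat.sInf_le h1)
  by_contra hcon
  push Not at hcon
  have h3 := Nat.sInf_mem (⟨N, h1⟩ : {m | OmegaProp n k x m}.Nonempty)
  exact h2 _ hcon h3

/-- The data attached to a bullet for `x = n + i`. -/
theorem bullet_data {n k i : ℕ} (hn : 2 ≤ n) (hk : 1 ≤ k) (hkn : k + 1 ≤ n) (hi : i ≤ k)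
    {ι : Type} (U : Finset ι) (g : ι → ℕ) (z : ℕ) (hg : ∀ u ∈ U, n ≤ g u ∧ g u ≤ n + k)
    (hz : z ∈ Gam n k) (hsum : ∑ u ∈ U, g u = n + i + z)
    (hnot : ∀ u ∈ U, ∀ w, w + g u = z → w ∉ Gam n k) :
    ∃ q c S : ℕ, ∃ j : ι → ℕ, c < n ∧ c ≤ q * k ∧ U.card * n + S = (q + 1) * n + c + i ∧
      S = ∑ u ∈ U, j u ∧ (∀ u ∈ U, j u ≤ k) ∧
      (∀ u ∈ U, j u ≤ c → 1 ≤ q → (q - 1) * k + j u < c) ∧
      (∀ u ∈ U, c < j u → 2 ≤ q → (q - 2) * k + j u < n + c) := by
  have hdiv : z = (z / n) * n + z % n := by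
    rw [mul_comm]; exact (Nat.div_add_mod z n).symm
  set q := z / n with hq
  set c := z % n with hc
  have hcn : c < n := Nat.mod_lt _ (by omega)
  refine ⟨q, c, ∑ u ∈ U, (g u - n), fun u => g u - n, hcn, ?_, ?_, rfl, ?_, ?_, ?_⟩
  · by_contra hcon
    push Not at hcon
    exact not_mem_of hcn hcon (hdiv ▸ hz)
  · have h1 : U.card * n + ∑ u ∈ U, (g u - n) = ∑ u ∈ U, g u := by
      rw [← smul_eq_mul, ← sum_const, ← sum_add_distrib]
      exact sum_congr rfl (fun u hu => by have := (hg u hu).1; omega)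
    rw [h1, hsum, Nat.add_mul]
    omega
  · intro u hu
    have := hg u hu
    show g u - n ≤ k
    omega
  · intro u hu hju hq1
    have hju' : g u - n ≤ c := hju
    have := hg u hu
    by_contra hcon
    push Not at hcon
    obtain ⟨q', hq'⟩ : ∃ q', q = q' + 1 := ⟨q - 1, by omega⟩
    have hcon' : c ≤ q' * k + (g u - n) := by
      have h9 := hcon
      rw [hq', Nat.add_sub_cancel] at h9
      exact h9
    refine hnot u hu (q' * n + (c - (g u - n))) ?_ (mem_of (by omega))
    rw [hdiv, hq', Nat.add_mul]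
    omega
  · intro u hu hju hq2
    have hju' : c < g u - n := hju
    have := hg u hu
    by_contra hcon
    push Not at hcon
    obtain ⟨q', hq'⟩ : ∃ q', q = q' + 2 := ⟨q - 2, by omega⟩
    have hcon' : n + c ≤ q' * k + (g u - n) := by
      have h9 := hcon
      rw [hq', Nat.add_sub_cancel] at h9
      exact h9
    refine hnot u hu (q' * n + (n + c - (g u - n))) ?_ (mem_of (by omega))
    rw [hdiv, hq', Nat.add_mul]
    omega

/-- Bound on the size of bullets. -/
theorem bullet_bound {n k i : ℕ} (hn : 2 ≤ n) (hk : 1 ≤ k) (hkn : k + 1 ≤ n) (hi : i ≤ k)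
    {ι : Type} (U : Finset ι) (g : ι → ℕ) (z : ℕ) (hg : ∀ u ∈ U, n ≤ g u ∧ g u ≤ n + k)
    (hz : z ∈ Gam n k) (hsum : ∑ u ∈ U, g u = n + i + z)
    (hnot : ∀ u ∈ U, ∀ w, w + g u = z → w ∉ Gam n k) :
    U.card ≤ qq n k + 2 ∧ (i = 0 → U.card ≤ qq n k + 1) ∧
      (1 ≤ i → k ∣ n - 2 → ¬ (qq n k + 1) ∣ (i - 1) → U.card ≤ qq n k + 1) ∧
      (i = 0 → k ∣ n - 2 → ¬ qq n k ∣ (k - 1) → U.card ≤ qq n k) := by
  obtain ⟨q, c, S, j, hcn, hcq, hmain, hS, hjk, hf1, hf2⟩ :=
    bullet_data hn hk hkn hi U g z hg hz hsum hnot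
  obtain ⟨Q, hQ⟩ : ∃ Q, Q = (n - 2) / k := ⟨_, rfl⟩
  have hqq : qq n k = Q + 1 := by unfold qq; rw [hQ]
  rw [hqq]
  obtain ⟨ρ, hρ⟩ : ∃ ρ, ρ = (n - 2) % k := ⟨_, rfl⟩
  have hdiv : Q * k + ρ = n - 2 := by
    rw [hQ, hρ, mul_comm]; exact Nat.div_add_mod _ _
  have hρk : ρ < k := by rw [hρ]; exact Nat.mod_lt _ hk
  have hdvd : k ∣ n - 2 → ρ = 0 := by
    intro h; rw [hρ]; exact Nat.mod_eq_zero_of_dvd h
  set r := U.card with hr
  -- comparison of `q` and `Q`
  have hqQ : ∀ p, p * k ≤ n - 2 → p ≤ Q := by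
    intro p hp
    by_contra hcon
    push Not at hcon
    have : (Q + 1) * k ≤ p * k := Nat.mul_le_mul_right k hcon
    rw [Nat.add_mul] at this
    omega
  have hjS : ∀ u ∈ U, j u ≤ S := by
    intro u hu
    rw [hS]
    exact single_le_sum (fun v _ => Nat.zero_le (j v)) hu
  have hb1 : ∀ u ∈ U, j u ≤ c → q ≤ Q + 1 := by
    intro u hu h1
    rcases Nat.eq_zero_or_pos q with h0 | h0
    · omega
    · have h2 := hf1 u hu h1 h0
      have h3 := hqQ (q - 1) (by omega)
      omega
  have hb2 : ∀ u ∈ U, c < j u → q ≤ Q + 2 := by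
    intro u hu h1
    rcases Nat.lt_or_ge q 2 with h0 | h0
    · omega
    · have h2 := hf2 u hu h1 h0
      have h3 := hqQ (q - 2) (by omega)
      omega
  have hb : ∀ u ∈ U, q ≤ Q + 2 := by
    intro u hu
    rcases Nat.lt_or_ge c (j u) with h | h
    · exact hb2 u hu h
    · have := hb1 u hu h; omega
  have hrq : r ≤ q + 2 := by
    by_contra hcon
    push Not at hcon
    have : (q + 3) * n ≤ r * n := Nat.mul_le_mul_right n hcon
    have e1 : (q + 3) * n = (q + 1) * n + 2 * n := by ring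
    omega
  have hex : 1 ≤ r → ∃ u, u ∈ U := fun h => card_pos.1 h
  -- the case `r = q + 2`
  have hA : r = q + 2 → S + n = c + i ∧ (∀ u ∈ U, j u ≤ c) ∧ 1 ≤ q ∧ q ≤ Q + 1 := by
    intro h
    have e1 : (q + 2) * n = (q + 1) * n + n := by ring
    rw [h] at hmain
    have h1 : S + n = c + i := by omega
    have h2 : ∀ u ∈ U, j u ≤ c := fun u hu => by
      have := hjS u hu
      omega
    have h3 : 1 ≤ q := by
      by_contra hcon
      have : q = 0 := by omega
      rw [this, Nat.zero_mul] at hcq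
      omega
    obtain ⟨u, hu⟩ := hex (by omega)
    exact ⟨h1, h2, h3, hb1 u hu (h2 u hu)⟩
  -- the case `r = q + 1`
  have hB : r = q + 1 → S = c + i := by
    intro h
    rw [h] at hmain
    omega
  refine ⟨?_, ?_, ?_, ?_⟩
  · rcases (by omega : r = q + 2 ∨ r = q + 1 ∨ r ≤ q) with h | h | h
    · have := hA h; omega
    · obtain ⟨u, hu⟩ := hex (by omega)
      have := hb u hu; omega
    · rcases Nat.eq_zero_or_pos r with h0 | h0
      · omega
      · obtain ⟨u, hu⟩ := hex h0
        have := hb u hu; omega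
  · intro hi0
    rcases (by omega : r = q + 2 ∨ r = q + 1 ∨ r ≤ q) with h | h | h
    · have := hA h; omega
    · obtain ⟨u, hu⟩ := hex (by omega)
      have h1 := hB h
      have h2 := hjS u hu
      have := hb1 u hu (by omega); omega
    · rcases Nat.eq_zero_or_pos r with h0 | h0
      · omega
      · obtain ⟨u, hu⟩ := hex h0
        have := hb u hu; omega
  · intro hi1 hkd hnd
    have hρ0 := hdvd hkd
    by_contra hcon
    push Not at hcon
    apply hnd
    rcases (by omega : r = q + 2 ∨ r = q + 1 ∨ r ≤ q) with h | h | h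
    · -- `q = Q + 1`, `c = n - 1`, all `j = 0`
      obtain ⟨h1, h2, h3, h4⟩ := hA h
      have hqe : q = Q + 1 := by omega
      obtain ⟨u, hu⟩ := hex (by omega)
      have hall : ∀ v ∈ U, j v = 0 ∧ c = n - 1 := by
        intro v hv
        have h5 := hf1 v hv (h2 v hv) h3
        have e1 : (q - 1) * k = Q * k := by rw [hqe, Nat.add_sub_cancel]
        rw [e1] at h5
        omega
      have hS0 : S = 0 := by
        rw [hS]; exact sum_eq_zero (fun v hv => (hall v hv).1)
      have := (hall u hu).2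
      have : i - 1 = 0 := by omega
      rw [this]
      exact dvd_zero _
    · -- `q = Q + 2`
      have h1 := hB h
      have hqge : Q + 2 ≤ q := by omega
      have hall : ∀ v ∈ U, j v = c + 1 := by
        intro v hv
        have h6 : c < j v := by
          by_contra hc'
          push Not at hc'
          have := hb1 v hv hc'
          omega
        have h7 := hf2 v hv h6 (by omega)
        have hqe : q = Q + 2 := by have := hb2 v hv h6; omega
        have e1 : (q - 2) * k = Q * k := by rw [hqe, Nat.add_sub_cancel]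
        rw [e1] at h7
        omega
      obtain ⟨u, hu⟩ := hex (by omega)
      have hqe : q = Q + 2 := by have := hb u hu; omega
      have hS1 : S = r * (c + 1) := by
        rw [hS, sum_congr rfl hall, sum_const, smul_eq_mul]
      refine ⟨c + 1, ?_⟩
      have e2 : r * (c + 1) = (Q + 1 + 1) * (c + 1) + (c + 1) := by
        rw [h, hqe]; ring
      omega
    · obtain ⟨u, hu⟩ := hex (by omega)
      have := hb u hu
      omega
  · intro hi0 hkd hnd
    have hρ0 := hdvd hkd
    by_contra hcon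
    push Not at hcon
    apply hnd
    rcases (by omega : r = q + 2 ∨ r = q + 1 ∨ r ≤ q) with h | h | h
    · have := hA h; omega
    · -- `S = c`, so all `j ≤ c`, `q = Q + 1`, `c = n - 1`, all `j = 0`
      have h1 := hB h
      obtain ⟨u, hu⟩ := hex (by omega)
      have hjc : ∀ v ∈ U, j v ≤ c := fun v hv => by have := hjS v hv; omega
      have h4 := hb1 u hu (hjc u hu)
      have hqe : q = Q + 1 := by omega
      have hall : ∀ v ∈ U, j v = 0 ∧ c = n - 1 := by
        intro v hv
        have h5 := hf1 v hv (hjc v hv) (by omega)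
        have e1 : (q - 1) * k = Q * k := by rw [hqe, Nat.add_sub_cancel]
        rw [e1] at h5
        omega
      have hS0 : S = 0 := by
        rw [hS]; exact sum_eq_zero (fun v hv => (hall v hv).1)
      have := (hall u hu).2
      omega
    · obtain ⟨u, hu⟩ := hex (by omega)
      have hqQ2 := hb u hu
      have hqge : Q + 2 ≤ q := by omega
      have hqe : q = Q + 2 := by omega
      have hre : r = Q + 2 := by omega
      have hall : ∀ v ∈ U, j v = c + 1 := by
        intro v hv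
        have h6 : c < j v := by
          by_contra hc'
          push Not at hc'
          have := hb1 v hv hc'
          omega
        have h7 := hf2 v hv h6 (by omega)
        have e1 : (q - 2) * k = Q * k := by rw [hqe, Nat.add_sub_cancel]
        rw [e1] at h7
        omega
      have hS1 : S = r * (c + 1) := by
        rw [hS, sum_congr rfl hall, sum_const, smul_eq_mul]
      -- `(Q+1)(c+1) = n - 1 = Q k + 1`
      have e2 : r * (c + 1) = (Q + 1) * (c + 1) + (c + 1) := by
        rw [hre]; ring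
      have e3 : (q + 1) * n = r * n + n := by rw [hqe, hre]; ring
      have h8 : (Q + 1) * (c + 1) = Q * k + 1 := by omega
      have h9 : (Q + 1) * k = (Q + 1) * (c + 1) + (k - 1) := by
        have : (Q + 1) * k = Q * k + k := by ring
        omega
      have h10 : (Q + 1) ∣ (Q + 1) * (c + 1) + (k - 1) := ⟨k, h9.symm⟩
      exact (Nat.dvd_add_right (dvd_mul_right (Q + 1) (c + 1))).1 h10

/-- Lower bounds: the four constructions. -/
theorem lower_gen {n k i q c r lo hi S : ℕ} (hn : 2 ≤ n) (hcq : c ≤ q * k)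
    (hr1 : r * lo ≤ S) (hr2 : S ≤ r * hi) (hlh : lo ≤ hi) (hhk : hi ≤ k)
    (heq : r * n + S = (q + 1) * n + c + i)
    (hbad : ∀ j, lo ≤ j → j ≤ hi → ∀ w, w + (n + j) = q * n + c → w ∉ Gam n k) (m : ℕ)
    (hm : m < r) : ¬ OmegaProp n k (n + i) m := by
  obtain ⟨f, hf1, hf2⟩ := exists_seq r lo hi S hr1 hr2 hlh
  refine not_prop_of_bullet (z := q * n + c) (fun j => n + f j)
    (fun j => gen_mem (by omega) (by have := (hf1 j).2; omega)) (mem_of hcq) ?_
    (fun j w hw => hbad (f j) (hf1 j).1 (hf1 j).2 w hw) m hm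
  rw [sum_add_distrib, sum_const, card_univ, Fintype.card_fin, smul_eq_mul, hf2, heq, Nat.add_mul]
  omega

/-- Non-membership for small `j ≤ c`. -/
theorem bad_small {n k q c j : ℕ} (hcn : c < n) (hq : 1 ≤ q) (hj : j ≤ c)
    (h : (q - 1) * k + j < c) : ∀ w, w + (n + j) = q * n + c → w ∉ Gam n k := by
  intro w hw
  obtain ⟨q', rfl⟩ : ∃ q', q = q' + 1 := ⟨q - 1, by omega⟩
  rw [Nat.add_sub_cancel] at h
  have : w = q' * n + (c - j) := by
    rw [Nat.add_mul] at hw
    omega
  rw [this]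
  exact not_mem_of (by omega) (by omega)

/-- Non-membership for large `j > c`. -/
theorem bad_large {n k q c j : ℕ} (hq : 2 ≤ q) (hj : c < j)
    (h : (q - 2) * k + j < n + c) : ∀ w, w + (n + j) = q * n + c → w ∉ Gam n k := by
  intro w hw
  obtain ⟨q', rfl⟩ : ∃ q', q = q' + 2 := ⟨q - 2, by omega⟩
  rw [Nat.add_sub_cancel] at h
  have : w = q' * n + (n + c - j) := by
    rw [Nat.add_mul] at hw
    omega
  rw [this]
  exact not_mem_of (by omega) (by omega)

theorem lower_bounds {n k i : ℕ} (hn : 2 ≤ n) (hk : 1 ≤ k) (hkn : k + 1 ≤ n) (hi : i ≤ k) :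
    (1 ≤ i → (k ∣ n - 2 → (qq n k + 1) ∣ (i - 1)) → ∀ m, m < qq n k + 2 →
      ¬ OmegaProp n k (n + i) m) ∧
    (1 ≤ i → k ∣ n - 2 → ¬ (qq n k + 1) ∣ (i - 1) → ∀ m, m < qq n k + 1 →
      ¬ OmegaProp n k (n + i) m) ∧
    (i = 0 → (k ∣ n - 2 → qq n k ∣ (k - 1)) → ∀ m, m < qq n k + 1 →
      ¬ OmegaProp n k (n + i) m) ∧
    (i = 0 → k ∣ n - 2 → ¬ qq n k ∣ (k - 1) → ∀ m, m < qq n k → ¬ OmegaProp n k (n + i) m) := by
  obtain ⟨Q, hQ⟩ : ∃ Q, Q = (n - 2) / k := ⟨_, rfl⟩
  have hqq : qq n k = Q + 1 := by unfold qq; rw [hQ]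
  rw [hqq]
  obtain ⟨ρ, hρ⟩ : ∃ ρ, ρ = (n - 2) % k := ⟨_, rfl⟩
  have hdiv : Q * k + ρ = n - 2 := by
    rw [hQ, hρ, mul_comm]; exact Nat.div_add_mod _ _
  have hρk : ρ < k := by rw [hρ]; exact Nat.mod_lt _ hk
  have hdvd : ρ = 0 → k ∣ n - 2 := by
    intro h; exact Nat.dvd_of_mod_eq_zero (by rw [← hρ]; exact h)
  have hdvd' : k ∣ n - 2 → ρ = 0 := by
    intro h; rw [hρ]; exact Nat.mod_eq_zero_of_dvd h
  have hQk : (Q + 1) * k = Q * k + k := by ring
  refine ⟨?_, ?_, ?_, ?_⟩
  · -- size `Q + 3`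
    intro hi1 hcond m hm
    obtain ⟨u, hu⟩ : ∃ u, u = (i - 1) / (Q + 2) := ⟨_, rfl⟩
    obtain ⟨e, he⟩ : ∃ e, e = (i - 1) % (Q + 2) := ⟨_, rfl⟩
    have hie : (Q + 2) * u + e = i - 1 := by rw [hu, he]; exact Nat.div_add_mod _ _
    have heQ : e < Q + 2 := by rw [he]; exact Nat.mod_lt _ (by omega)
    have heρ : e ≤ (Q + 3) * ρ := by
      rcases Nat.eq_zero_or_pos ρ with h0 | h0
      · have := hcond (hdvd h0)
        have he0 : e = 0 := by
          rw [he]; exact Nat.mod_eq_zero_of_dvd (by rwa [show Q + 1 + 1 = Q + 2 from rfl] at this)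
        omega
      · have : (Q + 3) * 1 ≤ (Q + 3) * ρ := Nat.mul_le_mul_left _ h0
        omega
    rcases Nat.eq_zero_or_pos u with hu0 | hu0
    · -- `q = Q + 1`, `c = n - 1`
      rw [hu0, Nat.mul_zero, Nat.zero_add] at hie
      refine lower_gen (q := Q + 1) (c := n - 1) (r := Q + 3) (lo := 0) (hi := ρ) (S := i - 1) hn
        (by omega) (by omega) (by omega) (by omega) (by omega) ?_ ?_ m (by omega)
      · have e1 : (Q + 3) * n = (Q + 1 + 1) * n + n := by ring
        omega
      · intro j _ hj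
        exact bad_small (by omega) (by omega) (by omega) (by rw [Nat.add_sub_cancel]; omega)
    · -- `q = Q + 2`, `c = u - 1`
      have hQu : (Q + 2) * u = Q * u + 2 * u := by ring
      have hQu' : 0 ≤ Q * u := Nat.zero_le _
      have huk : u ≤ k := by omega
      refine lower_gen (q := Q + 2) (c := u - 1) (r := Q + 3) (lo := u) (hi := min k (u + ρ))
        (S := u - 1 + i) hn ?_ ?_ ?_ (le_min huk (by omega)) (min_le_left _ _) ?_ ?_ m (by omega)
      · have : (Q + 2) * k = Q * k + 2 * k := by ring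
        omega
      · have : (Q + 3) * u = Q * u + 3 * u := by ring
        omega
      · rcases le_total k (u + ρ) with h | h
        · rw [min_eq_left h]
          have : (Q + 3) * k = Q * k + 3 * k := by ring
          omega
        · rw [min_eq_right h]
          have : (Q + 3) * (u + ρ) = Q * u + 3 * u + (Q + 3) * ρ := by ring
          omega
      · have e1 : (Q + 3) * n = (Q + 2 + 1) * n := by ring
        omega
      · intro j hj1 hj2
        have hj3 := le_trans hj2 (min_le_right _ _)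
        exact bad_large (by omega) (by omega) (by rw [Nat.add_sub_cancel]; omega)
  · -- size `Q + 2`, `ρ = 0`, `i ≥ 2`
    intro hi1 hkd hnd m hm
    have hρ0 := hdvd' hkd
    have hi2 : 2 ≤ i := by
      by_contra hcon
      have : i - 1 = 0 := by omega
      rw [this] at hnd
      exact hnd (dvd_zero _)
    have hQ1 : 1 ≤ Q := by
      rcases Nat.eq_zero_or_pos Q with h0 | h0
      · rw [h0] at hdiv; omega
      · exact h0
    obtain ⟨P, hP⟩ : ∃ P, Q = P + 1 := ⟨Q - 1, by omega⟩
    have hPk : Q * k = P * k + k := by rw [hP]; ring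
    refine lower_gen (q := Q) (c := n - 2) (r := Q + 2) (lo := 0) (hi := k - 1) (S := i - 2) hn
      (by omega) (by omega) ?_ (by omega) (by omega) ?_ ?_ m (by omega)
    · have : (Q + 2) * (k - 1) = Q * (k - 1) + 2 * (k - 1) := by ring
      omega
    · have e1 : (Q + 2) * n = (Q + 1) * n + n := by ring
      omega
    · intro j _ hj
      exact bad_small (by omega) hQ1 (by omega) (by rw [hP, Nat.add_sub_cancel]; omega)
  · -- size `Q + 2`, `i = 0`
    intro hi0 hcond m hm
    subst hi0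
    obtain ⟨u, hu⟩ : ∃ u, u = (n - 1) / (Q + 1) := ⟨_, rfl⟩
    obtain ⟨e, he⟩ : ∃ e, e = (n - 1) % (Q + 1) := ⟨_, rfl⟩
    have hne : (Q + 1) * u + e = n - 1 := by rw [hu, he]; exact Nat.div_add_mod _ _
    have heQ : e < Q + 1 := by rw [he]; exact Nat.mod_lt _ (by omega)
    have hQu : (Q + 1) * u = Q * u + u := by ring
    have hu1 : 1 ≤ u := by
      rcases Nat.eq_zero_or_pos u with h0 | h0
      · rw [h0, Nat.mul_zero, Nat.zero_add] at hne
        have : Q ≤ Q * k := Nat.le_mul_of_pos_right Q hk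
        omega
      · exact h0
    have huk : u ≤ k := by
      by_contra hcon
      push Not at hcon
      have h1 : (Q + 1) * (k + 1) ≤ (Q + 1) * u := Nat.mul_le_mul_left _ hcon
      have h2 : (Q + 1) * (k + 1) = Q * k + k + (Q + 1) := by ring
      omega
    have heρ : e ≤ (Q + 2) * ρ := by
      rcases Nat.eq_zero_or_pos ρ with h0 | h0
      · have h1 := hcond (hdvd h0)
        have h2 : (Q + 1) ∣ n - 1 := by
          have h3 : (Q + 1) * k = (n - 1) + (k - 1) := by omega
          have h4 : (Q + 1) ∣ (n - 1) + (k - 1) := ⟨k, h3.symm⟩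
          exact (Nat.dvd_add_left h1).1 h4
        have he0 : e = 0 := by rw [he]; exact Nat.mod_eq_zero_of_dvd h2
        omega
      · have : (Q + 2) * 1 ≤ (Q + 2) * ρ := Nat.mul_le_mul_left _ h0
        omega
    refine lower_gen (i := 0) (q := Q + 2) (c := u - 1) (r := Q + 2) (lo := u)
      (hi := min k (u + ρ)) (S := n + u - 1) hn ?_ ?_ ?_ (le_min huk (by omega))
      (min_le_left _ _) ?_ ?_ m (by omega)
    · have : (Q + 2) * k = Q * k + 2 * k := by ring
      omega
    · have : (Q + 2) * u = Q * u + 2 * u := by ring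
      omega
    · rcases le_total k (u + ρ) with h | h
      · rw [min_eq_left h]
        have : (Q + 2) * k = Q * k + 2 * k := by ring
        omega
      · rw [min_eq_right h]
        have : (Q + 2) * (u + ρ) = Q * u + 2 * u + (Q + 2) * ρ := by ring
        omega
    · have e1 : (Q + 2 + 1) * n = (Q + 2) * n + n := by ring
      omega
    · intro j hj1 hj2
      have hj3 := le_trans hj2 (min_le_right _ _)
      exact bad_large (by omega) (by omega) (by rw [Nat.add_sub_cancel]; omega)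
  · -- size `Q + 1`, `i = 0`, `ρ = 0`, `(Q+1) ∤ (k-1)`
    intro hi0 hkd hnd m hm
    subst hi0
    have hρ0 := hdvd' hkd
    have hk2 : 2 ≤ k := by
      by_contra hcon
      have : k - 1 = 0 := by omega
      rw [this] at hnd
      exact hnd (dvd_zero _)
    have hQ1 : 1 ≤ Q := by
      rcases Nat.eq_zero_or_pos Q with h0 | h0
      · rw [h0] at hnd
        exact absurd (one_dvd _) hnd
      · exact h0
    obtain ⟨P, hP⟩ : ∃ P, Q = P + 1 := ⟨Q - 1, by omega⟩
    have hPk : Q * k = P * k + k := by rw [hP]; ring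
    have hQQk : Q * 1 ≤ Q * k := Nat.mul_le_mul_left Q hk
    refine lower_gen (i := 0) (q := Q + 1) (c := 0) (r := Q + 1) (lo := 1) (hi := k) (S := n) hn
      (by omega) (by omega) (by omega) (by omega) le_rfl ?_ ?_ m (by omega)
    · have e1 : (Q + 1 + 1) * n = (Q + 1) * n + n := by ring
      omega
    · intro j hj1 hj2
      refine bad_large (by omega) (by omega) ?_
      have : Q + 1 - 2 = P := by omega
      rw [this]
      omega

/-- All `ω`-values of the minimal generators of `⟨n, n+1, …, n+k⟩`, `n ≥ 2`, `1 ≤ k ≤ n-1`.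
Put `q = ⌊(n-2)/k⌋ + 1`. Then `ω(n) = q` if `k ∣ n-2` and `q ∤ k-1`, and `ω(n) = q+1` otherwise;
for `1 ≤ i ≤ k`, `ω(n+i) = q+1` if `k ∣ n-2` and `(q+1) ∤ i-1`, and `ω(n+i) = q+2` otherwise. -/
theorem result : ∀ n k : ℕ, 2 ≤ n → 1 ≤ k → k ≤ n - 1 →
    omega' n k n = (if k ∣ n - 2 ∧ ¬ qq n k ∣ (k - 1) then qq n k else qq n k + 1) ∧
    ∀ i : ℕ, 1 ≤ i → i ≤ k →
      omega' n k (n + i) =
        (if k ∣ n - 2 ∧ ¬ (qq n k + 1) ∣ (i - 1) then qq n k + 1 else qq n k + 2) := by
  intro n k hn hk hkn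
  have hkn' : k + 1 ≤ n := by omega
  constructor
  · have hL := lower_bounds hn hk hkn' (Nat.zero_le k)
    rw [← Nat.add_zero n]
    split_ifs with h
    · apply omega_eq
      · apply prop_of_bound
        intro ι U g z hg hz hsum hnot
        exact (bullet_bound hn hk hkn' (Nat.zero_le k) U g z hg hz hsum hnot).2.2.2 rfl h.1 h.2
      · exact hL.2.2.2 rfl h.1 h.2
    · apply omega_eq
      · apply prop_of_bound
        intro ι U g z hg hz hsum hnot
        exact (bullet_bound hn hk hkn' (Nat.zero_le k) U g z hg hz hsum hnot).2.1 rfl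
      · exact hL.2.2.1 rfl (fun h1 => by
          by_contra h2
          exact h ⟨h1, h2⟩)
  · intro i hi1 hik
    have hL := lower_bounds hn hk hkn' hik
    split_ifs with h
    · apply omega_eq
      · apply prop_of_bound
        intro ι U g z hg hz hsum hnot
        exact (bullet_bound hn hk hkn' hik U g z hg hz hsum hnot).2.2.1 hi1 h.1 h.2
      · exact hL.2.1 hi1 h.1 h.2
    · apply omega_eq
      · apply prop_of_bound
        intro ι U g z hg hz hsum hnot
        exact (bullet_bound hn hk hkn' hik U g z hg hz hsum hnot).1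
      · exact hL.1 hi1 (fun h1 => by
          by_contra h2
          exact h ⟨h1, h2⟩)

end Pool.Agent.Results.MP_d5f0e7_al.OmegaFormula
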